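import Pool.Agent.H8.M6.Defs
import Pool.Agent.H37.TM.SdE

/-!
# Project M6: the cochains on the subdivision are pulled back from the manifold

`thE φ (σ, τ) = ∑ (c over σ, c)`, over the flags `c` with `φ c = τ` which are injective outside `σ` (TM.SdT: `TC`, `ov`,
`thE_apply`, `tc`); so `al (thE φ ({u}, τ)) c = 1` if and only if `φ : c → τ` is bijective.
-/

set_option autoImplicit false
set_option linter.unusedSectionVars false

open Finset Pointwise

namespace Pool.Agent.H8.M6

open Pool.Agent.H19.Cub Pool.Agent.H77.SX Pool.Agent.H37.TM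

variable {U : Type} [DecidableEq U] {K B : Set (Finset U)} {n : ℕ}

private lemma al_lin {U W : Type} (F : W → (Finset U × Finset U →₀ ZMod 2)) (y : W →₀ ZMod 2)
    (c : Finset U) : al (lin F y) c = ∑ e ∈ y.support, y e * al (F e) c := by
  unfold al lin
  simp only [Finsupp.linearCombination_apply, Finsupp.sum, Finsupp.finsetSum_apply,
    Finsupp.smul_apply, smul_eq_mul]
  rw [Finset.sum_comm]
  refine Finset.sum_congr rfl fun e _ => ?_
  rw [Finset.mul_sum]

private lemma al_self {U : Type} (y : Finset U × Finset U →₀ ZMod 2) (c : Finset U) :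
    al y c = ∑ e ∈ y.support, y e * al (Finsupp.single e 1) c := by
  rw [← al_lin]
  congr 1
  unfold lin
  rw [Finsupp.linearCombination_apply]
  conv_lhs => rw [← Finsupp.sum_single y]
  refine Finsupp.sum_congr fun e _ => ?_
  rw [Finsupp.smul_single, smul_eq_mul, mul_one]

/-- a flag over a cell of the form `({u}, τ)` is mapped bijectively -/
private lemma tc_inj {φ : Sx K → U} {σ τ : Finset U} {c : Finset (Sx K)} {a : Sx K}
    (h : TC φ σ τ c) (ha : {a} = ov φ σ c) : Set.InjOn φ (c : Set (Sx K)) := by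
  intro b hb b' hb' hbb
  by_cases hσ : φ b ∈ σ
  · have h1 : b ∈ ov φ σ c := mem_filter.2 ⟨hb, hσ⟩
    have h2 : b' ∈ ov φ σ c := mem_filter.2 ⟨hb', by rw [← hbb]; exact hσ⟩
    rw [← ha, mem_singleton] at h1 h2
    rw [h1, h2]
  · exact h.2.2 b hb b' hb' hbb hσ

private lemma tc_iff {φ : Sx K → U} {σ τ : Finset U} (hστ : σ ⊆ τ) {c : Finset (Sx K)}
    (hc : c ∈ sdK K) (hinj : Set.InjOn φ (c : Set (Sx K))) {a : Sx K} (ha : a ∈ c) :
    (TC φ σ τ c ∧ {a} = ov φ σ c) ↔ (σ = {φ a} ∧ τ = c.image φ) := by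
  constructor
  · rintro ⟨h, h'⟩
    refine ⟨?_, h.2.1.symm⟩
    ext v
    rw [mem_singleton]
    constructor
    · intro hv
      have h1 : v ∈ c.image φ := by rw [h.2.1]; exact hστ hv
      obtain ⟨b, hb, rfl⟩ := mem_image.1 h1
      have h2 : b ∈ ov φ σ c := mem_filter.2 ⟨hb, hv⟩
      rw [← h', mem_singleton] at h2
      rw [h2]
    · rintro rfl
      have h2 : a ∈ ov φ σ c := by rw [← h']; exact mem_singleton_self a
      exact (mem_filter.1 h2).2
  · rintro ⟨rfl, rfl⟩
    refine ⟨⟨hc, rfl, fun b hb b' hb' hbb _ => hinj hb hb' hbb⟩, ?_⟩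
    ext b
    rw [mem_singleton]
    constructor
    · rintro rfl
      exact mem_filter.2 ⟨ha, mem_singleton_self _⟩
    · intro hb
      obtain ⟨h1, h2⟩ := mem_filter.1 hb
      exact hinj h1 ha (mem_singleton.1 h2)

open Classical in
private lemma al_thE_cell (hM : Psm K B n) {φ : Sx K → U} (hφ : ∀ a, φ a ∈ a.1) {i : ℕ}
    {e : Finset U × Finset U} (he : e ∈ TCell K B n (i + 1)) {c : Finset (Sx K)}
    (hc : c ∈ sdK K) : al (thE φ e) c =
      if Set.InjOn φ (c : Set (Sx K)) then al (Finsupp.single e 1) (c.image φ) else 0 := by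
  obtain ⟨σ, τ⟩ := e
  obtain ⟨hσ, hστ, -, -, -⟩ := he
  simp only at hσ hστ
  have h1 : ∀ a, thE φ (σ, τ) ({a}, c) = if TC φ σ τ c ∧ {a} = ov φ σ c then 1 else 0 :=
    fun a => thE_apply hM hφ hσ.ne_empty _ _
  unfold al
  simp only [h1]
  split_ifs with hinj
  · rw [Finset.sum_image hinj]
    refine Finset.sum_congr rfl fun a ha => ?_
    rw [Finsupp.single_apply]
    refine if_congr ?_ rfl rfl
    rw [tc_iff hστ hc hinj ha, Prod.mk.injEq]
  · refine Finset.sum_eq_zero fun a _ => ?_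
    rw [if_neg]
    rintro ⟨h2, h3⟩
    exact hinj (tc_inj h2 h3)

open Classical in
theorem al_thE (hM : Psm K B n) {φ : Sx K → U} (hφ : ∀ a, φ a ∈ a.1) {i : ℕ}
    {y : Finset U × Finset U →₀ ZMod 2} (hy : y ∈ TN K B n (i + 1)) {c : Finset (Sx K)}
    (hc : c ∈ sdK K) : al (lin (thE φ) y) c = if Set.InjOn φ (c : Set (Sx K)) then al y (c.image φ) else 0 := by
  have hy' : ∀ e ∈ y.support, e ∈ TCell K B n (i + 1) := fun e he =>
    (Finsupp.mem_supported _ _).1 hy he
  rw [al_lin]
  split_ifs with hinj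
  · rw [al_self y]
    refine Finset.sum_congr rfl fun e he => ?_
    rw [al_thE_cell hM hφ (hy' e he) hc, if_pos hinj]
  · refine Finset.sum_eq_zero fun e he => ?_
    rw [al_thE_cell hM hφ (hy' e he) hc, if_neg hinj, mul_zero]

open Classical in
theorem aa_thE {V X P F : Type} [DecidableEq V] [Group P] [Field F] [Algebra (ZMod 2) F]
    {Q : CubeComplex V X} {g : V → P} {t : V → P → F} (D : Dat Q g t) (s : Finset V) {x₀ : X}
    {bit : X → V → ZMod 2} {d : ℕ} (z : Finset V → X → Finset V × P → F) (hM : Psm K B n)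
    {φ : Sx K → U} (hφ : ∀ a, φ a ∈ a.1)
    {Ψ : Q.Cover x₀ × Finset V → (Finset U × Finset U →₀ ZMod 2)}
    (hΨ : ∀ e ∈ Cell Q x₀ bit d, Ψ e ∈ TN K B n (d + 1)) (p : P) (A : Finset V)
    {c : Finset (Sx K)} (hc : c ∈ sdK K) :
    aa D s x₀ bit d z (fun e => lin (thE φ) (Ψ e)) p A c =
      if Set.InjOn φ (c : Set (Sx K)) then aa D s x₀ bit d z Ψ p A (c.image φ) else 0 := by
  unfold aa
  split_ifs with hinj
  · refine finsum_congr fun e => ?_
    split_ifs with he
    · rw [al_thE hM hφ (hΨ e he) hc, if_pos hinj]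
    · rfl
  · have h1 : ∀ e : Q.Cover x₀ × Finset V,
        (if e ∈ Cell Q x₀ bit d then al (lin (thE φ) (Ψ e)) c • upz D s x₀ z e (A, p) else 0) =
          0 := by
      intro e
      split_ifs with he
      · rw [al_thE hM hφ (hΨ e he) hc, if_neg hinj, zero_smul]
      · rfl
    simp only [h1, finsum_zero]

end Pool.Agent.H8.M6
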