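import Pool.Agent.H8.M6.Defs

/-!
# Project M6: the cap product on the cubes

`(c, A) ↦ ∑_C γ C (c) (c C, A \ C)` (`C ⊆ A` with `m` elements, `c C` the opposite vertex).
-/

set_option autoImplicit false
set_option linter.unusedSectionVars false

open Finset Pointwise

namespace Pool.Agent.H8.M6

open Pool.Agent.H19.Cub Pool.Agent.H77.SX Pool.Agent.H37.TM

section

variable {V Y : Type} [DecidableEq V]

/-- `σ` spans a cube at `y` -/
private def Kl (C : CubeComplex V Y) (y : Y) (σ : Finset V) : Prop :=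
  σ ⊆ C.lab y ∧ C.graph.IsClique (σ : Set V)

private theorem Kl.nb {C : CubeComplex V Y} {y : Y} {σ : Finset V} (h : Kl C y σ) {v : V}
    (hv : v ∈ σ) : Kl C (C.nb v y) σ := by
  refine ⟨fun u hu => ?_, h.2⟩
  by_cases huv : u = v
  · rw [huv]
    exact C.lab_nb v y (h.1 hv)
  · exact C.lab_adj u v y (h.2 (mem_coe.2 hu) (mem_coe.2 hv) huv) (h.1 hu) (h.1 hv)

private theorem Kl.comm {C : CubeComplex V Y} {y : Y} {σ : Finset V} (h : Kl C y σ) {u v : V}
    (hu : u ∈ σ) (hv : v ∈ σ) : C.nb u (C.nb v y) = C.nb v (C.nb u y) := by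
  by_cases huv : u = v
  · rw [huv]
  · exact C.nb_comm u v y (h.2 (mem_coe.2 hu) (mem_coe.2 hv) huv) (h.1 hu) (h.1 hv)

private theorem Kl.fin {C : CubeComplex V Y} {σ : Finset V} (l : List V) :
    ∀ {y : Y}, Kl C y σ → (∀ v ∈ l, v ∈ σ) → Kl C (C.fin y l) σ := by
  induction l with
  | nil => exact fun h _ => h
  | cons v l ih =>
    intro y h hl
    exact ih (h.nb (hl v List.mem_cons_self)) fun u hu => hl u (List.mem_cons_of_mem v hu)

/-- the end of a path in a cube does not depend on the order of the labels -/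
private theorem Kl.perm {C : CubeComplex V Y} {σ : Finset V} {l l' : List V} (hp : l.Perm l') :
    ∀ {y : Y}, Kl C y σ → (∀ v ∈ l, v ∈ σ) → C.fin y l = C.fin y l' := by
  induction hp with
  | nil => exact fun _ _ => rfl
  | cons v _ ih =>
    intro y h hl
    exact ih (h.nb (hl v List.mem_cons_self)) fun u hu => hl u (List.mem_cons_of_mem v hu)
  | swap u v l =>
    intro y h hl
    show C.fin (C.nb u (C.nb v y)) l = C.fin (C.nb v (C.nb u y)) l
    rw [h.comm (hl u (List.mem_cons_of_mem _ List.mem_cons_self)) (hl v List.mem_cons_self)]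
  | trans h1 _ ih1 ih2 =>
    intro y h hl
    rw [ih1 h hl]
    exact ih2 h fun u hu => hl u (h1.mem_iff.2 hu)

private theorem Kl.toList {C : CubeComplex V Y} {σ A : Finset V} {y : Y} (h : Kl C y σ)
    (hA : A ⊆ σ) : Kl C (C.fin y A.toList) σ :=
  Kl.fin _ h fun _ hv => hA (mem_toList.1 hv)

private theorem Kl.insert_left {C : CubeComplex V Y} {σ A : Finset V} {y : Y} (h : Kl C y σ)
    {v : V} (hv : v ∈ σ) (hA : A ⊆ σ) (hvA : v ∉ A) :
    C.fin y (insert v A).toList = C.fin (C.nb v y) A.toList :=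
  Kl.perm (toList_insert hvA) h fun u hu => by
    rcases mem_insert.1 (mem_toList.1 hu) with h1 | h1
    · exact h1 ▸ hv
    · exact hA h1

private theorem Kl.insert_right {C : CubeComplex V Y} {σ A : Finset V} {y : Y} (h : Kl C y σ)
    {v : V} (hv : v ∈ σ) (hA : A ⊆ σ) (hvA : v ∉ A) :
    C.fin y (insert v A).toList = C.nb v (C.fin y A.toList) := by
  have h1 : C.fin y (insert v A).toList = C.fin y (A.toList ++ [v]) :=
    Kl.perm ((toList_insert hvA).trans (List.perm_append_singleton v A.toList).symm) h fun u hu => by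
      rcases mem_insert.1 (mem_toList.1 hu) with h1 | h1
      · exact h1 ▸ hv
      · exact hA h1
  rw [h1, CubeComplex.fin_append]
  rfl

end

variable {V X : Type} [DecidableEq V] {Q : CubeComplex V X} {x₀ : X} {bit : X → V → ZMod 2}

private theorem pnb {c : Q.Cover x₀} {v : V} (h : v ∈ Q.lab (Q.proj x₀ c)) :
    Q.proj x₀ (Q.nbc x₀ v c) = Q.nb v (Q.proj x₀ c) := by
  induction c using Quot.ind with
  | mk l =>
    have h' : v ∈ Q.lab (Q.fin x₀ l.1) := h
    rw [Q.nbc_mk x₀ v l h']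
    show Q.fin x₀ (l.1 ++ [v]) = Q.nb v (Q.fin x₀ l.1)
    rw [CubeComplex.fin_append]
    rfl

private theorem cell_kl {i : ℕ} {e : Q.Cover x₀ × Finset V} (he : e ∈ Cell Q x₀ bit i) :
    Kl (Q.cover x₀) e.1 e.2 := ⟨he.1, he.2.1⟩

/-- the other bits do not change along a path -/
private theorem bit_fin (hbit : IsBit Q bit) {σ : Finset V} {u : V} (l : List V) :
    ∀ {c : Q.Cover x₀}, Kl (Q.cover x₀) c σ → (∀ v ∈ l, v ∈ σ) → u ∉ l →
      bit (Q.proj x₀ ((Q.cover x₀).fin c l)) u = bit (Q.proj x₀ c) u := by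
  induction l with
  | nil => exact fun _ _ _ => rfl
  | cons v l ih =>
    intro c h hl hu
    have hv : v ∈ σ := hl v List.mem_cons_self
    have huv : u ≠ v := fun h1 => hu (h1 ▸ List.mem_cons_self)
    have h1 := ih (h.nb hv) (fun w hw => hl w (List.mem_cons_of_mem v hw))
      (fun h2 => hu (List.mem_cons_of_mem v h2))
    have h2 : bit (Q.proj x₀ (Q.nbc x₀ v c)) u = bit (Q.proj x₀ c) u := by
      rw [pnb (h.1 hv), hbit v _ (h.1 hv) u, if_neg huv, add_zero]
    exact h1.trans h2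

private theorem fin_smul {Γ : Type} [Group Γ] [MulAction Γ (Q.Cover x₀)] (hΓ : IsDeck Γ Q x₀)
    (g : Γ) {σ : Finset V} (l : List V) :
    ∀ {c : Q.Cover x₀}, Kl (Q.cover x₀) c σ → (∀ v ∈ l, v ∈ σ) →
      (Q.cover x₀).fin (g • c) l = g • (Q.cover x₀).fin c l := by
  induction l with
  | nil => exact fun _ _ => rfl
  | cons v l ih =>
    intro c h hl
    have hv : v ∈ σ := hl v List.mem_cons_self
    have h1 := ih (h.nb hv) (fun w hw => hl w (List.mem_cons_of_mem v hw))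
    show (Q.cover x₀).fin (Q.nbc x₀ v (g • c)) l = g • (Q.cover x₀).fin (Q.nbc x₀ v c) l
    rw [hΓ.nb g v c (h.1 hv)]
    exact h1

/-- the back face is a cube -/
private theorem back_cell (hbit : IsBit Q bit) {i m : ℕ} {e : Q.Cover x₀ × Finset V}
    (he : e ∈ Cell Q x₀ bit i) {C : Finset V} (hC : C ∈ e.2.powersetCard m) :
    ((Q.cover x₀).fin e.1 C.toList, e.2 \ C) ∈ Cell Q x₀ bit (i - m) := by
  obtain ⟨h1, h2⟩ := mem_powersetCard.1 hC
  have h3 := (cell_kl he).toList h1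
  refine ⟨fun u hu => h3.1 (mem_sdiff.1 hu).1, ?_, ?_, fun u hu => ?_⟩
  · exact h3.2.subset fun u hu => mem_coe.2 (mem_sdiff.1 (mem_coe.1 hu)).1
  · show (e.2 \ C).card = i - m
    rw [card_sdiff_of_subset h1, he.2.2.1, h2]
  · show bit (Q.proj x₀ ((Q.cover x₀).fin e.1 C.toList)) u = 0
    rw [bit_fin hbit C.toList (cell_kl he) (fun v hv => h1 (mem_toList.1 hv))
      (fun h => (mem_sdiff.1 hu).2 (mem_toList.1 h))]
    exact he.2.2.2 u (mem_sdiff.1 hu).1

theorem capD_cell (hbit : IsBit Q bit) {i m : ℕ} (γ : Finset V → X → ZMod 2) {e : Q.Cover x₀ × Finset V}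
    (he : e ∈ Cell Q x₀ bit i) {b : Q.Cover x₀ × Finset V} (hb : capD Q x₀ m γ e b ≠ 0) :
    b ∈ Cell Q x₀ bit (i - m) ∧ m ≤ i := by
  rw [capD, Finsupp.finsetSum_apply] at hb
  obtain ⟨C, hC, hCb⟩ := exists_ne_zero_of_sum_ne_zero hb
  rw [Finsupp.smul_apply] at hCb
  have h1 : ((Q.cover x₀).fin e.1 C.toList, e.2 \ C) = b := by
    by_contra h
    rw [Finsupp.single_eq_of_ne (Ne.symm h), smul_zero] at hCb
    exact hCb rfl
  refine ⟨h1 ▸ back_cell hbit he hC, ?_⟩
  obtain ⟨h2, h3⟩ := mem_powersetCard.1 hC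
  have h4 := card_le_card h2
  rw [h3, he.2.2.1] at h4
  exact h4

theorem capD_smul {Γ : Type} [Group Γ] [MulAction Γ (Q.Cover x₀)] (hΓ : IsDeck Γ Q x₀) {i m : ℕ}
    (γ : Finset V → X → ZMod 2) (g : Γ) {e : Q.Cover x₀ × Finset V} (he : e ∈ Cell Q x₀ bit i) :
    capD Q x₀ m γ (g • e) = (capD Q x₀ m γ e).mapDomain (g • ·) := by
  have h0 : (capD Q x₀ m γ e).mapDomain (g • ·) =
      ∑ C ∈ e.2.powersetCard m, (γ C (Q.proj x₀ e.1) •
        Finsupp.single ((Q.cover x₀).fin e.1 C.toList, e.2 \ C) (1 : ZMod 2)).mapDomain (g • ·) :=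
    map_sum (Finsupp.lmapDomain (ZMod 2) (ZMod 2) (g • ·)) _ _
  rw [h0]
  show ∑ C ∈ e.2.powersetCard m, γ C (Q.proj x₀ (g • e.1)) •
    Finsupp.single ((Q.cover x₀).fin (g • e.1) C.toList, e.2 \ C) (1 : ZMod 2) = _
  refine sum_congr rfl fun C hC => ?_
  have h1 := (mem_powersetCard.1 hC).1
  rw [Finsupp.mapDomain_smul, Finsupp.mapDomain_single, hΓ.proj,
    fin_smul hΓ g C.toList (cell_kl he) (fun v hv => h1 (mem_toList.1 hv))]
  rfl

private theorem lin_bdD' {N : Type} [AddCommGroup N]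
    [Module (ZMod 2) N] (F : Q.Cover x₀ × Finset V → N) (e : Q.Cover x₀ × Finset V) :
    lin F (bdD Q x₀ e) = ∑ v ∈ e.2, (F (e.1, e.2.erase v) + F (Q.nbc x₀ v e.1, e.2.erase v)) := by
  rw [bdD, map_sum]
  exact sum_congr rfl fun v _ => by rw [map_add, lin_single, lin_single]

private theorem lin_capD {N : Type} [AddCommGroup N] [Module (ZMod 2) N] (m : ℕ)
    (γ : Finset V → X → ZMod 2) (F : Q.Cover x₀ × Finset V → N) (e : Q.Cover x₀ × Finset V) :
    lin F (capD Q x₀ m γ e) = ∑ C ∈ e.2.powersetCard m, γ C (Q.proj x₀ e.1) •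
      F ((Q.cover x₀).fin e.1 C.toList, e.2 \ C) := by
  rw [capD, map_sum]
  exact sum_congr rfl fun v _ => by rw [map_smul, lin_single]

/-- the pairs `(C, v)`, `v ∉ C`, and the pairs `(C', v)`, `v ∈ C'` -/
private theorem sum_insert_pairs {M : Type} [AddCommMonoid M] (A : Finset V) (m : ℕ)
    (F : Finset V → V → M) :
    ∑ v ∈ A, ∑ C ∈ (A.erase v).powersetCard m, F (insert v C) v =
      ∑ C ∈ A.powersetCard (m + 1), ∑ v ∈ C, F C v := by
  rw [sum_sigma', sum_sigma']
  refine sum_bij' (fun p _ => ⟨insert p.1 p.2, p.1⟩) (fun p _ => ⟨p.2, p.1.erase p.2⟩) ?_ ?_ ?_ ?_ ?_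
  · rintro ⟨v, C⟩ h
    simp only [mem_sigma, mem_powersetCard] at h ⊢
    obtain ⟨h1, h2, h3⟩ := h
    have h4 : v ∉ C := fun h => (mem_erase.1 (h2 h)).1 rfl
    refine ⟨⟨insert_subset h1 (h2.trans (erase_subset _ _)), ?_⟩, mem_insert_self _ _⟩
    rw [card_insert_of_notMem h4, h3]
  · rintro ⟨C, v⟩ h
    simp only [mem_sigma, mem_powersetCard] at h ⊢
    obtain ⟨⟨h1, h2⟩, h3⟩ := h
    refine ⟨h1 h3, erase_subset_erase v h1, ?_⟩
    rw [card_erase_of_mem h3, h2]
    rfl
  · rintro ⟨v, C⟩ h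
    simp only [mem_sigma, mem_powersetCard] at h
    obtain ⟨h1, h2, h3⟩ := h
    have h4 : v ∉ C := fun h => (mem_erase.1 (h2 h)).1 rfl
    simp only [erase_insert h4]
  · rintro ⟨C, v⟩ h
    simp only [mem_sigma, mem_powersetCard] at h
    obtain ⟨⟨h1, h2⟩, h3⟩ := h
    simp only [insert_erase h3]
  · rintro ⟨v, C⟩ h
    rfl

/-- the cap product with a cocycle is a chain map -/
theorem bdD_capD (hbit : IsBit Q bit) {i m : ℕ} {γ : Finset V → X → ZMod 2} (hγ : CocQ Q bit m γ)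
    {e : Q.Cover x₀ × Finset V} (he : e ∈ Cell Q x₀ bit i) (hi : m + 1 ≤ i) :
    lin (bdD Q x₀) (capD Q x₀ m γ e) = lin (capD Q x₀ m γ) (bdD Q x₀ e) := by
  obtain ⟨c, A⟩ := e
  have hK : Kl (Q.cover x₀) c A := cell_kl he
  obtain ⟨he1, he2, he3, he4⟩ := he
  have he1' : A ⊆ Q.lab (Q.proj x₀ c) := he1
  have he2' : Q.graph.IsClique (A : Set V) := he2
  have he4' : ∀ v ∈ A, bit (Q.proj x₀ c) v = 0 := he4
  -- the cocycle condition
  have h0 : ∑ v ∈ A, ∑ C ∈ (A.erase v).powersetCard m,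
      (γ C (Q.proj x₀ c) + γ C (Q.nb v (Q.proj x₀ c))) •
        Finsupp.single ((Q.cover x₀).fin c (insert v C).toList, A \ insert v C) (1 : ZMod 2) = 0 := by
    have h1 := sum_insert_pairs A m fun C v =>
      (γ (C.erase v) (Q.proj x₀ c) + γ (C.erase v) (Q.nb v (Q.proj x₀ c))) •
        Finsupp.single ((Q.cover x₀).fin c C.toList, A \ C) (1 : ZMod 2)
    have h2 : ∑ C ∈ A.powersetCard (m + 1), ∑ v ∈ C,
        (γ (C.erase v) (Q.proj x₀ c) + γ (C.erase v) (Q.nb v (Q.proj x₀ c))) •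
        Finsupp.single ((Q.cover x₀).fin c C.toList, A \ C) (1 : ZMod 2) = 0 := by
      refine sum_eq_zero fun C hC => ?_
      obtain ⟨h3, h4⟩ := mem_powersetCard.1 hC
      rw [← Finset.sum_smul, hγ (Q.proj x₀ c) C (h3.trans he1') (he2'.subset (coe_subset.2 h3)) h4
        (fun v hv => he4' v (h3 hv)), zero_smul]
    rw [h2] at h1
    rw [← h1]
    refine sum_congr rfl fun v _ => sum_congr rfl fun C hC => ?_
    have h5 : v ∉ C := fun h => (mem_erase.1 ((mem_powersetCard.1 hC).1 h)).1 rfl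
    rw [erase_insert h5]
  -- the left hand side
  have hL : lin (bdD Q x₀) (capD Q x₀ m γ (c, A)) =
      ∑ v ∈ A, ∑ C ∈ (A.erase v).powersetCard m, (γ C (Q.proj x₀ c) •
        Finsupp.single ((Q.cover x₀).fin c C.toList, A \ insert v C) (1 : ZMod 2) +
        γ C (Q.proj x₀ c) •
        Finsupp.single ((Q.cover x₀).fin c (insert v C).toList, A \ insert v C) (1 : ZMod 2)) := by
    rw [lin_capD]
    have h1 : ∀ C ∈ A.powersetCard m, γ C (Q.proj x₀ c) •
        bdD Q x₀ ((Q.cover x₀).fin c C.toList, A \ C) = ∑ v ∈ A \ C, (γ C (Q.proj x₀ c) •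
        Finsupp.single ((Q.cover x₀).fin c C.toList, A \ insert v C) (1 : ZMod 2) +
        γ C (Q.proj x₀ c) •
        Finsupp.single ((Q.cover x₀).fin c (insert v C).toList, A \ insert v C) (1 : ZMod 2)) := by
      intro C hC
      obtain ⟨h3, h4⟩ := mem_powersetCard.1 hC
      rw [bdD, smul_sum]
      refine sum_congr rfl fun v hv => ?_
      obtain ⟨h5, h6⟩ := mem_sdiff.1 hv
      rw [smul_add, hK.insert_right h5 h3 h6]
      have h7 : (A \ C).erase v = A \ insert v C := by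
        ext u
        simp only [mem_erase, mem_sdiff, mem_insert, not_or]
        tauto
      simp only [h7]
      rfl
    show ∑ C ∈ A.powersetCard m, γ C (Q.proj x₀ c) •
        bdD Q x₀ ((Q.cover x₀).fin c C.toList, A \ C) = _
    rw [sum_congr rfl h1]
    refine sum_comm' fun C v => ?_
    simp only [mem_powersetCard, mem_sdiff]
    constructor
    · rintro ⟨⟨h2, h3⟩, h4, h5⟩
      exact ⟨⟨fun u hu => mem_erase.2 ⟨fun h => h5 (h ▸ hu), h2 hu⟩, h3⟩, h4⟩
    · rintro ⟨⟨h2, h3⟩, h4⟩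
      exact ⟨⟨h2.trans (erase_subset _ _), h3⟩, h4, fun h => (mem_erase.1 (h2 h)).1 rfl⟩
  -- the right hand side
  have hR : lin (capD Q x₀ m γ) (bdD Q x₀ (c, A)) =
      ∑ v ∈ A, ∑ C ∈ (A.erase v).powersetCard m, (γ C (Q.proj x₀ c) •
        Finsupp.single ((Q.cover x₀).fin c C.toList, A \ insert v C) (1 : ZMod 2) +
        γ C (Q.nb v (Q.proj x₀ c)) •
        Finsupp.single ((Q.cover x₀).fin c (insert v C).toList, A \ insert v C) (1 : ZMod 2)) := by
    rw [lin_bdD']
    refine sum_congr rfl fun v hv => ?_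
    have hv' : v ∈ A := hv
    show capD Q x₀ m γ (c, A.erase v) + capD Q x₀ m γ (Q.nbc x₀ v c, A.erase v) = _
    rw [sum_add_distrib]
    have h7 : ∀ C : Finset V, A.erase v \ C = A \ insert v C := by
      intro C
      ext u
      simp only [mem_erase, mem_sdiff, mem_insert, not_or]
      tauto
    congr 1
    · rw [capD]
      refine sum_congr rfl fun C _ => ?_
      simp only [h7]
    · rw [capD]
      refine sum_congr rfl fun C hC => ?_
      have h3 := (mem_powersetCard.1 hC).1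
      have h5 : v ∉ C := fun h => (mem_erase.1 (h3 h)).1 rfl
      rw [hK.insert_left hv' (h3.trans (erase_subset _ _)) h5]
      simp only [h7, pnb (he1' hv')]
      rfl
  have h9 : ∀ x y : Q.Cover x₀ × Finset V →₀ ZMod 2, x + y = 0 → x = y := fun x y h => by
    rw [← add_zero x, ← chain_add_self y, ← add_assoc, h, zero_add]
  refine h9 _ _ ?_
  rw [hL, hR, ← h0, ← sum_add_distrib]
  refine sum_congr rfl fun v _ => ?_
  rw [← sum_add_distrib]
  refine sum_congr rfl fun C _ => ?_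
  rw [add_smul]
  generalize γ C (Q.proj x₀ c) • Finsupp.single ((Q.cover x₀).fin c C.toList, A \ insert v C)
    (1 : ZMod 2) = a
  have h10 := chain_add_self a
  generalize γ C (Q.proj x₀ c) • Finsupp.single ((Q.cover x₀).fin c (insert v C).toList,
    A \ insert v C) (1 : ZMod 2) = b
  generalize γ C (Q.nb v (Q.proj x₀ c)) • Finsupp.single ((Q.cover x₀).fin c
    (insert v C).toList, A \ insert v C) (1 : ZMod 2) = d
  calc a + b + (a + d) = (a + a) + (b + d) := by abel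
    _ = b + d := by rw [h10, zero_add]

/-- in degree `m`: a multiple of a vertex -/
theorem capD_last {m : ℕ} (γ : Finset V → X → ZMod 2) {e : Q.Cover x₀ × Finset V}
    (he : e ∈ Cell Q x₀ bit m) :
    ∃ c, (c, (∅ : Finset V)) ∈ Cell Q x₀ bit 0 ∧
      capD Q x₀ m γ e = γ e.2 (Q.proj x₀ e.1) • Finsupp.single (c, ∅) 1 := by
  refine ⟨(Q.cover x₀).fin e.1 e.2.toList, ⟨empty_subset _, ?_, rfl, fun v hv => absurd hv (notMem_empty v)⟩, ?_⟩
  · show Q.graph.IsClique ((∅ : Finset V) : Set V)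
    rw [coe_empty]
    exact SimpleGraph.isClique_empty
  · have h1 : e.2.powersetCard m = {e.2} := by
      rw [← he.2.2.1]
      exact powersetCard_self _
    rw [capD, h1, sum_singleton, sdiff_self]
    rfl

end Pool.Agent.H8.M6
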