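import Pool.Agent.H8.M6.CapD

/-!
# Project M6: transposes

`upz D s x₀ y (c, σ)` is `y σ` at `c`, transported to the base point; cf. `sum_cofaces` (TM.StarC) for `coface_bd`.
-/

set_option autoImplicit false
set_option linter.unusedSectionVars false

open Finset Pointwise

namespace Pool.Agent.H8.M6

open Pool.Agent.H19.Cub Pool.Agent.H77.SX Pool.Agent.H37.TM

variable {V X P K : Type} [DecidableEq V] [Fintype V] [Group P] [Field K] [Algebra (ZMod 2) K]
  {Q : CubeComplex V X} {g : V → P} {t : V → P → K} {x₀ : X} {bit : X → V → ZMod 2}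

/-- A function `c` on the cubes of dimension `d + 1` which does not depend on the vertex: the sum over the cofaces
of a cube `b` of dimension `d` (the proof of `TM.sum_cofaces`). -/
private theorem sum_cofaces'  {Y : Type} [AddCommGroup Y] [Module (ZMod 2) Y] [Fintype V] {d : ℕ}
    (hbit : IsBit Q bit) (c : Q.Cover x₀ × Finset V → Y)
    (h0 : ∀ e, c e ≠ 0 → e.2 ⊆ Q.lab (Q.proj x₀ e.1) ∧ Q.graph.IsClique (e.2 : Set V) ∧
      e.2.card = d + 1)
    (h1 : ∀ x σ, σ ⊆ Q.lab (Q.proj x₀ x) → ∀ v ∈ σ, c (Q.nbc x₀ v x, σ) = c (x, σ))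
    (b : Q.Cover x₀ × Finset V)
    (hb : b ∈ Cell Q x₀ bit d) :
    {e | e ∈ Cell Q x₀ bit (d + 1) ∧ bdD Q x₀ e b ≠ 0}.Finite ∧
    ∑ᶠ e : Q.Cover x₀ × Finset V, (open Classical in
      if e ∈ Cell Q x₀ bit (d + 1) then bdD Q x₀ e b • c e else 0) =
      ∑ v ∈ b.2ᶜ, c (b.1, insert v b.2) := by
  classical
  obtain ⟨x, κ⟩ := b
  obtain ⟨hb1, hb2, hb3, hb4⟩ := hb
  have hb4' : ∀ u ∈ κ, bit (Q.proj x₀ x) u = 0 := hb4
  set ev : V → Q.Cover x₀ × Finset V := fun v =>
    (if bit (Q.proj x₀ x) v = 0 then x else Q.nbc x₀ v x, insert v κ) with hev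
  have hA : ∀ e : Q.Cover x₀ × Finset V, e ∈ Cell Q x₀ bit (d + 1) → bdD Q x₀ e (x, κ) ≠ 0 →
      e ∈ κᶜ.image ev := by
    rintro ⟨y, σ⟩ ⟨he1, he2, he3, he4⟩ he
    rw [bdD, Finsupp.finsetSum_apply] at he
    obtain ⟨v, hv, hvb⟩ := exists_ne_zero_of_sum_ne_zero he
    have hv' : v ∈ σ := hv
    have he1' : σ ⊆ Q.lab (Q.proj x₀ y) := he1
    have he4' : ∀ u ∈ σ, bit (Q.proj x₀ y) u = 0 := he4
    rw [Finsupp.add_apply] at hvb
    by_cases h5 : (y, σ.erase v) = (x, κ)
    · rw [Prod.mk.injEq] at h5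
      obtain ⟨rfl, h5⟩ := h5
      refine mem_image.2 ⟨v, ?_, ?_⟩
      · rw [mem_compl, ← h5]
        exact notMem_erase v σ
      · show (if bit (Q.proj x₀ y) v = 0 then y else Q.nbc x₀ v y, insert v κ) = (y, σ)
        rw [if_pos (he4' v hv'), ← h5, insert_erase hv']
    · have h6 : (Q.nbc x₀ v y, σ.erase v) = (x, κ) := by
        by_contra h6
        have h7 : (Finsupp.single (y, σ.erase v) (1 : ZMod 2)) (x, κ) = 0 :=
          Finsupp.single_eq_of_ne (Ne.symm h5)
        have h8 : (Finsupp.single (Q.nbc x₀ v y, σ.erase v) (1 : ZMod 2)) (x, κ) = 0 :=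
          Finsupp.single_eq_of_ne (Ne.symm h6)
        exact hvb (by
          show (Finsupp.single (y, σ.erase v) (1 : ZMod 2)) (x, κ) +
            (Finsupp.single (Q.nbc x₀ v y, σ.erase v) (1 : ZMod 2)) (x, κ) = 0
          rw [h7, h8, add_zero])
      rw [Prod.mk.injEq] at h6
      obtain ⟨h6, h7⟩ := h6
      have h8 : bit (Q.proj x₀ x) v = 1 := by
        rw [← h6, proj_nbc x₀ (he1' hv'), hbit v _ (he1' hv') v, he4' v hv', if_pos rfl, zero_add]
      refine mem_image.2 ⟨v, ?_, ?_⟩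
      · rw [mem_compl, ← h7]
        exact notMem_erase v σ
      · show (if bit (Q.proj x₀ x) v = 0 then x else Q.nbc x₀ v x, insert v κ) = (y, σ)
        rw [if_neg (by rw [h8]; exact one_ne_zero), ← h7, insert_erase hv', ← h6,
          nbc_nbc]
  have hfin : {e | e ∈ Cell Q x₀ bit (d + 1) ∧ bdD Q x₀ e (x, κ) ≠ 0}.Finite :=
    ((κᶜ.image ev).finite_toSet).subset fun e he => mem_coe.2 (hA e he.1 he.2)
  refine ⟨hfin, ?_⟩
  set F : Q.Cover x₀ × Finset V → Y := fun e =>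
    if e ∈ Cell Q x₀ bit (d + 1) then bdD Q x₀ e (x, κ) • c e else 0 with hFdef
  have hsupp : Function.support F ⊆ ((κᶜ.image ev : Finset _) : Set _) := by
    intro e he
    rw [Function.mem_support] at he
    by_cases h3 : e ∈ Cell Q x₀ bit (d + 1)
    · have h4 : F e = bdD Q x₀ e (x, κ) • c e := if_pos h3
      refine mem_coe.2 (hA e h3 fun h5 => he ?_)
      rw [h4, h5, zero_smul]
    · exact absurd (if_neg h3) he
  have hinj : Set.InjOn ev ((κᶜ : Finset V) : Set V) := by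
    intro v hv w hw hvw
    have h3 : insert v κ = insert w κ := congrArg Prod.snd hvw
    have h4 : v ∈ insert w κ := h3 ▸ mem_insert_self v κ
    rcases mem_insert.1 h4 with h5 | h5
    · exact h5
    · exact absurd h5 (mem_compl.1 (mem_coe.1 hv))
  show ∑ᶠ e, F e = ∑ v ∈ κᶜ, c (x, insert v κ)
  rw [finsum_eq_sum_of_support_subset F hsupp, sum_image hinj]
  refine sum_congr rfl fun v hv => ?_
  have hv : v ∉ κ := mem_compl.1 hv
  -- the coefficient of `(x, κ)`
  have hcoef : ∀ y : Q.Cover x₀, bdD Q x₀ (y, insert v κ) (x, κ) =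
      (Finsupp.single y (1 : ZMod 2)) x + (Finsupp.single (Q.nbc x₀ v y) (1 : ZMod 2)) x := by
    intro y
    rw [bdD, Finsupp.finsetSum_apply]
    have h3 : ∀ w ∈ insert v κ, w ≠ v → ((Finsupp.single (y, (insert v κ).erase w) (1 : ZMod 2)) +
        Finsupp.single (Q.nbc x₀ w y, (insert v κ).erase w) 1 : Q.Cover x₀ × Finset V →₀ ZMod 2)
        (x, κ) = 0 := by
      intro w _ hwv
      have h4 : (insert v κ).erase w ≠ κ := by
        intro h5
        exact hv (h5 ▸ mem_erase.2 ⟨Ne.symm hwv, mem_insert_self v κ⟩)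
      rw [Finsupp.add_apply, Finsupp.single_eq_of_ne (fun h => h4 (congrArg Prod.snd h).symm),
        Finsupp.single_eq_of_ne (fun h => h4 (congrArg Prod.snd h).symm), add_zero]
    have h4 := sum_eq_single_of_mem (s := insert v κ) (f := fun w =>
      ((Finsupp.single (y, (insert v κ).erase w) (1 : ZMod 2)) +
        Finsupp.single (Q.nbc x₀ w y, (insert v κ).erase w) 1 : Q.Cover x₀ × Finset V →₀ ZMod 2)
        (x, κ)) v (mem_insert_self v κ) h3
    refine h4.trans ?_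
    show ((Finsupp.single (y, (insert v κ).erase v) (1 : ZMod 2)) +
        Finsupp.single (Q.nbc x₀ v y, (insert v κ).erase v) 1 : Q.Cover x₀ × Finset V →₀ ZMod 2)
        (x, κ) = _
    rw [erase_insert hv, Finsupp.add_apply]
    have h5 : ∀ y' : Q.Cover x₀, (Finsupp.single (y', κ) (1 : ZMod 2)) (x, κ) =
        (Finsupp.single y' (1 : ZMod 2)) x := by
      intro y'
      by_cases h6 : y' = x
      · rw [h6, Finsupp.single_eq_same, Finsupp.single_eq_same]
      · rw [Finsupp.single_eq_of_ne (fun h => h6 (congrArg Prod.fst h).symm),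
          Finsupp.single_eq_of_ne (fun h => h6 h.symm)]
    rw [h5, h5]
  by_cases hbv : bit (Q.proj x₀ x) v = 0
  · have hev1 : ev v = (x, insert v κ) := by
      show (if bit (Q.proj x₀ x) v = 0 then x else Q.nbc x₀ v x, insert v κ) = _
      rw [if_pos hbv]
    show F (ev v) = _
    rw [hev1]
    by_cases hc : c (x, insert v κ) = 0
    · show (if (x, insert v κ) ∈ Cell Q x₀ bit (d + 1) then
        bdD Q x₀ (x, insert v κ) (x, κ) • c (x, insert v κ) else 0) = _
      rw [hc, smul_zero, ite_self]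
    · obtain ⟨g1, g2, g3⟩ := h0 _ hc
      have g1' : insert v κ ⊆ Q.lab (Q.proj x₀ x) := g1
      have hcell : (x, insert v κ) ∈ Cell Q x₀ bit (d + 1) := by
        refine ⟨g1, g2, g3, fun u hu => ?_⟩
        rcases mem_insert.1 hu with h3 | h3
        · rw [h3]
          exact hbv
        · exact hb4' u h3
      have hne : Q.nbc x₀ v x ≠ x := by
        intro h3
        have h4 := hbit v _ (g1' (mem_insert_self v κ)) v
        rw [← proj_nbc x₀ (g1' (mem_insert_self v κ)), h3, if_pos rfl] at h4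
        exact one_ne_zero (add_eq_left.1 h4.symm)
      show (if (x, insert v κ) ∈ Cell Q x₀ bit (d + 1) then
        bdD Q x₀ (x, insert v κ) (x, κ) • c (x, insert v κ) else 0) = _
      rw [if_pos hcell, hcoef, Finsupp.single_eq_same, Finsupp.single_eq_of_ne (Ne.symm hne),
        add_zero, one_smul]
  · have hb1v : bit (Q.proj x₀ x) v = 1 := by
      generalize bit (Q.proj x₀ x) v = a at hbv
      revert a
      decide
    have hev1 : ev v = (Q.nbc x₀ v x, insert v κ) := by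
      show (if bit (Q.proj x₀ x) v = 0 then x else Q.nbc x₀ v x, insert v κ) = _
      rw [if_neg hbv]
    show F (ev v) = _
    rw [hev1]
    by_cases hc : c (x, insert v κ) = 0
    · rw [hc]
      show (if (Q.nbc x₀ v x, insert v κ) ∈ Cell Q x₀ bit (d + 1) then
        bdD Q x₀ (Q.nbc x₀ v x, insert v κ) (x, κ) • c (Q.nbc x₀ v x, insert v κ) else 0) = _
      split_ifs with h3
      · have h4 := h1 (Q.nbc x₀ v x) (insert v κ) h3.1 v (mem_insert_self v κ)
        rw [nbc_nbc, hc] at h4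
        rw [← h4, smul_zero]
      · rfl
    · obtain ⟨g1, g2, g3⟩ := h0 _ hc
      have g1' : insert v κ ⊆ Q.lab (Q.proj x₀ x) := g1
      have g2' : Q.graph.IsClique ((insert v κ : Finset V) : Set V) := g2
      have hvl := g1' (mem_insert_self v κ)
      have hcell : (Q.nbc x₀ v x, insert v κ) ∈ Cell Q x₀ bit (d + 1) := by
        refine ⟨fun u hu => ?_, g2, g3, fun u hu => ?_⟩
        · rcases mem_insert.1 hu with h3 | h3
          · rw [h3]
            exact (Q.cover x₀).lab_nb v x hvl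
          · have h4 : u ≠ v := fun h => hv (h ▸ h3)
            exact (Q.cover x₀).lab_adj u v x (g2' (mem_coe.2 hu)
              (mem_coe.2 (mem_insert_self v κ)) h4) (g1' hu) hvl
        · show bit (Q.proj x₀ (Q.nbc x₀ v x)) u = 0
          rw [proj_nbc x₀ hvl, hbit v _ hvl u]
          rcases mem_insert.1 hu with h3 | h3
          · rw [h3, hb1v, if_pos rfl]
            decide
          · have h4 : u ≠ v := fun h => hv (h ▸ h3)
            rw [hb4' u h3, if_neg h4, add_zero]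
      have hne : Q.nbc x₀ v x ≠ x := by
        intro h3
        have h4 := hbit v _ hvl v
        rw [← proj_nbc x₀ hvl, h3, if_pos rfl] at h4
        exact one_ne_zero (add_eq_left.1 h4.symm)
      show (if (Q.nbc x₀ v x, insert v κ) ∈ Cell Q x₀ bit (d + 1) then
        bdD Q x₀ (Q.nbc x₀ v x, insert v κ) (x, κ) • c (Q.nbc x₀ v x, insert v κ) else 0) = _
      rw [if_pos hcell, hcoef, nbc_nbc, Finsupp.single_eq_same,
        Finsupp.single_eq_of_ne (Ne.symm hne), zero_add, one_smul]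
      exact h1 x (insert v κ) g1' v (mem_insert_self v κ)

/-! #### lists of labels in a clique -/

private theorem nbc_comm' {u v : V} (h : Q.graph.Adj u v) (c : Q.Cover x₀) :
    Q.nbc x₀ u (Q.nbc x₀ v c) = Q.nbc x₀ v (Q.nbc x₀ u c) := by
  have key : ∀ {u v : V}, Q.graph.Adj u v → u ∈ Q.lab (Q.proj x₀ c) →
      v ∉ Q.lab (Q.proj x₀ c) → v ∉ Q.lab (Q.proj x₀ (Q.nbc x₀ u c)) := by
    intro u v h hu hv h1
    have h2 : u ∈ Q.lab (Q.proj x₀ (Q.nbc x₀ u c)) := (Q.cover x₀).lab_nb u c hu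
    have h3 : v ∈ Q.lab (Q.proj x₀ (Q.nbc x₀ u (Q.nbc x₀ u c))) :=
      (Q.cover x₀).lab_adj v u (Q.nbc x₀ u c) h.symm h1 h2
    rw [nbc_nbc] at h3
    exact hv h3
  by_cases hu : u ∈ Q.lab (Q.proj x₀ c) <;> by_cases hv : v ∈ Q.lab (Q.proj x₀ c)
  · exact (Q.cover x₀).nb_comm u v c h hu hv
  · rw [nbc_of_notMem hv, nbc_of_notMem (key h hu hv)]
  · rw [nbc_of_notMem hu, nbc_of_notMem (key h.symm hv hu)]
  · rw [nbc_of_notMem hu, nbc_of_notMem hv, nbc_of_notMem hu]

private theorem fin_nbc {σ : Finset V} (hσ : Q.graph.IsClique (σ : Set V)) {l : List V}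
    (hl : ∀ u ∈ l, u ∈ σ) {v : V} (hv : v ∈ σ) (c : Q.Cover x₀) :
    (Q.cover x₀).fin (Q.nbc x₀ v c) l = Q.nbc x₀ v ((Q.cover x₀).fin c l) := by
  induction l generalizing c with
  | nil => rfl
  | cons u l ih =>
    have hu : u ∈ σ := hl u List.mem_cons_self
    have h1 : Q.nbc x₀ u (Q.nbc x₀ v c) = Q.nbc x₀ v (Q.nbc x₀ u c) := by
      by_cases huv : u = v
      · rw [huv]
      · exact nbc_comm' (hσ (mem_coe.2 hu) (mem_coe.2 hv) huv) c
    show (Q.cover x₀).fin (Q.nbc x₀ u (Q.nbc x₀ v c)) l =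
      Q.nbc x₀ v ((Q.cover x₀).fin (Q.nbc x₀ u c) l)
    rw [h1]
    exact ih (fun w hw => hl w (List.mem_cons_of_mem u hw)) _

private theorem fin_fin {σ : Finset V} (hσ : Q.graph.IsClique (σ : Set V)) {l : List V}
    (hl : ∀ u ∈ l, u ∈ σ) (c : Q.Cover x₀) :
    (Q.cover x₀).fin ((Q.cover x₀).fin c l) l = c := by
  induction l generalizing c with
  | nil => rfl
  | cons u l ih =>
    have hu : u ∈ σ := hl u List.mem_cons_self
    have hl' : ∀ w ∈ l, w ∈ σ := fun w hw => hl w (List.mem_cons_of_mem u hw)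
    show (Q.cover x₀).fin (Q.nbc x₀ u ((Q.cover x₀).fin (Q.nbc x₀ u c) l)) l = c
    rw [fin_nbc hσ hl' hu, ih hl', nbc_nbc]

private theorem sub_nbc {σ : Finset V} (hσ : Q.graph.IsClique (σ : Set V)) {c : Q.Cover x₀}
    (hc : σ ⊆ Q.lab (Q.proj x₀ c)) {u : V} (hu : u ∈ σ) :
    σ ⊆ Q.lab (Q.proj x₀ (Q.nbc x₀ u c)) := by
  intro w hw
  by_cases hwu : w = u
  · rw [hwu]
    exact (Q.cover x₀).lab_nb u c (hc hu)
  · exact (Q.cover x₀).lab_adj w u c (hσ (mem_coe.2 hw) (mem_coe.2 hu) hwu) (hc hw) (hc hu)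

private theorem fin_facts (hbit : IsBit Q bit) {σ : Finset V}
    (hσ : Q.graph.IsClique (σ : Set V)) {l : List V} (hl : ∀ u ∈ l, u ∈ σ) {c : Q.Cover x₀}
    (hc : σ ⊆ Q.lab (Q.proj x₀ c)) :
    σ ⊆ Q.lab (Q.proj x₀ ((Q.cover x₀).fin c l)) ∧
    Q.proj x₀ ((Q.cover x₀).fin c l) = Q.fin (Q.proj x₀ c) l ∧
    ∀ w, bit (Q.proj x₀ ((Q.cover x₀).fin c l)) w = bit (Q.proj x₀ c) w + (l.count w : ZMod 2) := by
  induction l generalizing c with
  | nil => exact ⟨hc, rfl, fun w => by simp [CubeComplex.fin]⟩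
  | cons u l ih =>
    have hu : u ∈ σ := hl u List.mem_cons_self
    have hl' : ∀ w ∈ l, w ∈ σ := fun w hw => hl w (List.mem_cons_of_mem u hw)
    obtain ⟨h1, h2, h3⟩ := ih hl' (sub_nbc hσ hc hu)
    have hp := proj_nbc x₀ (hc hu)
    refine ⟨h1, ?_, fun w => ?_⟩
    · show Q.proj x₀ ((Q.cover x₀).fin (Q.nbc x₀ u c) l) = Q.fin (Q.nb u (Q.proj x₀ c)) l
      rw [h2, hp]
    · show bit (Q.proj x₀ ((Q.cover x₀).fin (Q.nbc x₀ u c) l)) w = _
      rw [h3, hp, hbit u _ (hc hu) w, List.count_cons, add_assoc]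
      congr 1
      by_cases hwu : w = u
      · rw [if_pos hwu, hwu]
        simp [add_comm]
      · rw [if_neg hwu]
        have : ¬ (u = w) := fun h => hwu h.symm
        simp [this]

private theorem count_toList (C : Finset V) (w : V) :
    (C.toList.count w : ZMod 2) = if w ∈ C then 1 else 0 := by
  by_cases h : w ∈ C
  · rw [if_pos h, List.count_eq_one_of_mem C.nodup_toList (mem_toList.2 h), Nat.cast_one]
  · rw [if_neg h, List.count_eq_zero_of_not_mem (fun h' => h (mem_toList.1 h')), Nat.cast_zero]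

private theorem upz_nbc' (D : Dat Q g t) {s : Finset V} {k : ℕ}
    {y : Finset V → X → Finset V × P → K} (hy : ChQ K Q k (rX g s t) y) {c : Q.Cover x₀}
    {σ : Finset V} (hσ : σ ⊆ Q.lab (Q.proj x₀ c)) {v : V} (hv : v ∈ σ) :
    upz D s x₀ y (Q.nbc x₀ v c, σ) = upz D s x₀ y (c, σ) := by
  show act D s x₀ (Q.nbc x₀ v c) (y σ (Q.proj x₀ (Q.nbc x₀ v c))) =
    act D s x₀ c (y σ (Q.proj x₀ c))
  rw [proj_nbc x₀ (hσ hv), hy.2 σ _ hσ v hv, act_nbc D s x₀ (hσ hv), rX_sq D s]

private theorem upz_fin (D : Dat Q g t) {s : Finset V} {k : ℕ}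
    {y : Finset V → X → Finset V × P → K} (hy : ChQ K Q k (rX g s t) y) {σ : Finset V}
    (hσ : Q.graph.IsClique (σ : Set V)) {l : List V} (hl : ∀ u ∈ l, u ∈ σ) {c : Q.Cover x₀}
    (hc : σ ⊆ Q.lab (Q.proj x₀ c)) :
    upz D s x₀ y ((Q.cover x₀).fin c l, σ) = upz D s x₀ y (c, σ) := by
  induction l generalizing c with
  | nil => rfl
  | cons u l ih =>
    have hu : u ∈ σ := hl u List.mem_cons_self
    have hl' : ∀ w ∈ l, w ∈ σ := fun w hw => hl w (List.mem_cons_of_mem u hw)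
    show upz D s x₀ y ((Q.cover x₀).fin (Q.nbc x₀ u c) l, σ) = _
    rw [ih hl' (sub_nbc hσ hc hu), upz_nbc' D hy hc hu]

private theorem act_smul2 (D : Dat Q g t) (s : Finset V) (c : Q.Cover x₀) (a : ZMod 2)
    (f : Finset V × P → K) : act D s x₀ c (a • f) = a • act D s x₀ c f := by
  have h : a = 0 ∨ a = 1 := by
    revert a
    decide
  rcases h with h | h
  · rw [h, zero_smul, zero_smul, map_zero]
  · rw [h, one_smul, one_smul]

theorem coface_bd (D : Dat Q g t) {s : Finset V} (hbit : IsBit Q bit) {k : ℕ}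
    {y : Finset V → X → Finset V × P → K} (hy : ChQ K Q (k + 1) (rX g s t) y)
    {b : Q.Cover x₀ × Finset V} (hb : b ∈ Cell Q x₀ bit k) :
    {e | e ∈ Cell Q x₀ bit (k + 1) ∧ bdD Q x₀ e b ≠ 0}.Finite ∧
    ∑ᶠ e : Q.Cover x₀ × Finset V, (open Classical in
      if e ∈ Cell Q x₀ bit (k + 1) then bdD Q x₀ e b • upz D s x₀ y e else 0) =
      upz D s x₀ (bdQ y) b := by
  obtain ⟨h1, h2⟩ := sum_cofaces' hbit (fun e => upz D s x₀ y e) (fun e he => by
      refine hy.1 e.2 (Q.proj x₀ e.1) fun h0 => he ?_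
      show act D s x₀ e.1 (y e.2 (Q.proj x₀ e.1)) = 0
      rw [h0, map_zero])
    (fun x σ hσ v hv => upz_nbc' D hy hσ hv) b hb
  refine ⟨h1, h2.trans ?_⟩
  show ∑ v ∈ b.2ᶜ, act D s x₀ b.1 (y (insert v b.2) (Q.proj x₀ b.1)) =
    act D s x₀ b.1 (∑ v ∈ b.2ᶜ, y (insert v b.2) (Q.proj x₀ b.1))
  rw [map_sum]

theorem coface_cap (D : Dat Q g t) {s : Finset V} (hbit : IsBit Q bit) {i m : ℕ} (hm : m ≤ i)
    (γ : Finset V → X → ZMod 2) {z : Finset V → X → Finset V × P → K}
    (hz : ChQ K Q i (rX g s t) z) {b : Q.Cover x₀ × Finset V} (hb : b ∈ Cell Q x₀ bit (i - m)) :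
    {e | e ∈ Cell Q x₀ bit i ∧ capD Q x₀ m γ e b ≠ 0}.Finite ∧
    ∑ᶠ e : Q.Cover x₀ × Finset V, (open Classical in
      if e ∈ Cell Q x₀ bit i then capD Q x₀ m γ e b • upz D s x₀ z e else 0) =
      upz D s x₀ (capQ Q bit m γ z) b := by
  classical
  obtain ⟨x, B⟩ := b
  obtain ⟨hb1, hb2, hb3, hb4⟩ := hb
  have hb4' : ∀ u ∈ B, bit (Q.proj x₀ x) u = 0 := hb4
  set CC : Finset (Finset V) := (univ : Finset (Finset V)).filter
    (fun C => C.card = m ∧ Disjoint B C ∧ ∀ v ∈ C, bit (Q.proj x₀ x) v ≠ 0) with hCC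
  set ev : Finset V → Q.Cover x₀ × Finset V := fun C => ((Q.cover x₀).fin x C.toList, B ∪ C)
    with hev
  have hA : ∀ e : Q.Cover x₀ × Finset V, e ∈ Cell Q x₀ bit i → capD Q x₀ m γ e (x, B) ≠ 0 →
      e ∈ CC.image ev := by
    rintro ⟨y, A⟩ ⟨he1, he2, he3, he4⟩ he
    have he1' : A ⊆ Q.lab (Q.proj x₀ y) := he1
    have he2' : Q.graph.IsClique (A : Set V) := he2
    have he4' : ∀ u ∈ A, bit (Q.proj x₀ y) u = 0 := he4
    rw [capD, Finsupp.finsetSum_apply] at he
    obtain ⟨C, hC, hCb⟩ := exists_ne_zero_of_sum_ne_zero he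
    obtain ⟨hCA, hCm⟩ := mem_powersetCard.1 hC
    have hCA' : C ⊆ A := hCA
    rw [Finsupp.smul_apply] at hCb
    have h5 : ((Q.cover x₀).fin y C.toList, A \ C) = (x, B) := by
      by_contra h5
      refine hCb ?_
      show γ C (Q.proj x₀ y) • (Finsupp.single ((Q.cover x₀).fin y C.toList, A \ C)
        (1 : ZMod 2)) (x, B) = 0
      rw [Finsupp.single_eq_of_ne (Ne.symm h5), smul_zero]
    rw [Prod.mk.injEq] at h5
    obtain ⟨h5, h6⟩ := h5
    have hl : ∀ u ∈ C.toList, u ∈ A := fun u hu => hCA' (mem_toList.1 hu)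
    obtain ⟨-, -, h7⟩ := fin_facts hbit he2' hl he1'
    refine mem_image.2 ⟨C, ?_, ?_⟩
    · rw [hCC, mem_filter]
      refine ⟨mem_univ _, hCm, ?_, fun v hv => ?_⟩
      · rw [← h6]
        exact sdiff_disjoint
      · rw [← h5, h7, he4' v (hCA' hv), count_toList, if_pos hv, zero_add]
        exact one_ne_zero
    · show ((Q.cover x₀).fin x C.toList, B ∪ C) = (y, A)
      rw [← h5, fin_fin he2' hl, ← h6, sdiff_union_of_subset hCA']
  have hfin : {e | e ∈ Cell Q x₀ bit i ∧ capD Q x₀ m γ e (x, B) ≠ 0}.Finite :=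
    ((CC.image ev).finite_toSet).subset fun e he => mem_coe.2 (hA e he.1 he.2)
  refine ⟨hfin, ?_⟩
  set F : Q.Cover x₀ × Finset V → Finset V × P → K := fun e =>
    if e ∈ Cell Q x₀ bit i then capD Q x₀ m γ e (x, B) • upz D s x₀ z e else 0 with hFdef
  have hsupp : Function.support F ⊆ ((CC.image ev : Finset _) : Set _) := by
    intro e he
    rw [Function.mem_support] at he
    by_cases h3 : e ∈ Cell Q x₀ bit i
    · have h4 : F e = capD Q x₀ m γ e (x, B) • upz D s x₀ z e := if_pos h3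
      refine mem_coe.2 (hA e h3 fun h5 => he ?_)
      rw [h4, h5, zero_smul]
    · exact absurd (if_neg h3) he
  have hinj : Set.InjOn ev (CC : Set (Finset V)) := by
    intro C hC C' hC' h
    have h3 : B ∪ C = B ∪ C' := congrArg Prod.snd h
    have hd := (mem_filter.1 (mem_coe.1 hC)).2.2.1
    have hd' := (mem_filter.1 (mem_coe.1 hC')).2.2.1
    rw [← union_sdiff_cancel_left hd, h3, union_sdiff_cancel_left hd']
  show ∑ᶠ e, F e = act D s x₀ x (∑ C ∈ CC, γ C (Q.fin (Q.proj x₀ x) C.toList) •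
    z (B ∪ C) (Q.proj x₀ x))
  rw [finsum_eq_sum_of_support_subset F hsupp, sum_image hinj, map_sum]
  refine sum_congr rfl fun C hC => ?_
  obtain ⟨-, hCm, hdis, hCb⟩ := mem_filter.1 hC
  rw [act_smul2]
  have hl : ∀ u ∈ C.toList, u ∈ B ∪ C := fun u hu => mem_union_right B (mem_toList.1 hu)
  by_cases hz0 : z (B ∪ C) (Q.proj x₀ x) = 0
  · rw [hz0, map_zero, smul_zero]
    by_cases hcell : ev C ∈ Cell Q x₀ bit i
    · have h4 : F (ev C) = capD Q x₀ m γ (ev C) (x, B) • upz D s x₀ z (ev C) := if_pos hcell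
      obtain ⟨g1, g2, -, -⟩ := hcell
      have h5 := upz_fin D hz (σ := B ∪ C) g2 hl (c := (Q.cover x₀).fin x C.toList) g1
      rw [fin_fin g2 hl] at h5
      have h6 : upz D s x₀ z (x, B ∪ C) = 0 := by
        show act D s x₀ x (z (B ∪ C) (Q.proj x₀ x)) = 0
        rw [hz0, map_zero]
      have h7 : upz D s x₀ z (ev C) = 0 := h5.symm.trans h6
      rw [h4, h7, smul_zero]
    · exact if_neg hcell
  · obtain ⟨g1, g2, g3⟩ := hz.1 _ _ hz0
    obtain ⟨h1, h2, h3⟩ := fin_facts hbit g2 hl g1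
    have hcell : ev C ∈ Cell Q x₀ bit i := by
      refine ⟨h1, g2, g3, fun v hv => ?_⟩
      show bit (Q.proj x₀ ((Q.cover x₀).fin x C.toList)) v = 0
      rw [h3, count_toList]
      rcases mem_union.1 (show v ∈ B ∪ C from hv) with h4 | h4
      · rw [hb4' v h4, if_neg (disjoint_left.1 hdis h4), add_zero]
      · rw [if_pos h4]
        have h5 := hCb v h4
        generalize bit (Q.proj x₀ x) v = a at h5
        revert a
        decide
    have h4 : F (ev C) = capD Q x₀ m γ (ev C) (x, B) • upz D s x₀ z (ev C) := if_pos hcell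
    have h5 : upz D s x₀ z (ev C) = act D s x₀ x (z (B ∪ C) (Q.proj x₀ x)) :=
      upz_fin D hz g2 hl g1
    have h6 : capD Q x₀ m γ (ev C) (x, B) = γ C (Q.fin (Q.proj x₀ x) C.toList) := by
      rw [capD, Finsupp.finsetSum_apply, sum_eq_single_of_mem C]
      · show (γ C (Q.proj x₀ ((Q.cover x₀).fin x C.toList)) •
          (Finsupp.single ((Q.cover x₀).fin ((Q.cover x₀).fin x C.toList) C.toList, (B ∪ C) \ C)
            1 : Q.Cover x₀ × Finset V →₀ ZMod 2)) (x, B) = _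
        rw [h2, fin_fin g2 hl, union_sdiff_cancel_right hdis, Finsupp.smul_apply,
          Finsupp.single_eq_same, smul_eq_mul, mul_one]
      · exact mem_powersetCard.2 ⟨subset_union_right, hCm⟩
      · intro C' hC' hne
        obtain ⟨hC1, hC2⟩ := mem_powersetCard.1 hC'
        have hC1' : C' ⊆ B ∪ C := hC1
        rw [Finsupp.smul_apply]
        show _ • (Finsupp.single ((Q.cover x₀).fin ((Q.cover x₀).fin x C.toList) C'.toList,
          (B ∪ C) \ C') (1 : ZMod 2)) (x, B) = 0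
        rw [Finsupp.single_eq_of_ne, smul_zero]
        intro h7
        refine hne ?_
        have h8 : B = (B ∪ C) \ C' := congrArg Prod.snd h7
        refine eq_of_subset_of_card_le (fun v hv => ?_) (by rw [hCm, hC2])
        rcases mem_union.1 (hC1' hv) with h9 | h9
        · rw [h8] at h9
          exact absurd hv (mem_sdiff.1 h9).2
        · exact h9
    rw [h4, h5, h6]

end Pool.Agent.H8.M6
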