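import Pool.Agent.H37.TM.StarB0
import Pool.Agent.H37.TM.StarD

/-!
# Project M6 (actions on manifolds, one wall less): definitions

`capD` is the cap product of the cubes of the universal cover with a cubical cochain `γ` (front face `γ`, back face
remains), `capQ` its transpose on the chains of `Q`; `kap` is the cap product of the tuples of vertices of the
subdivision `M` with the function `G` of the tuples of vertices of the cover, projected by `φ` to the simplicial
chains of the original manifold.
-/

set_option autoImplicit false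
set_option linter.unusedSectionVars false

open Finset Pointwise

namespace Pool.Agent.H8.M6

open Pool.Agent.H19.Cub Pool.Agent.H77.SX Pool.Agent.H37.TM

section

variable {V X : Type} [DecidableEq V]

/-- the chains of degree `k` of `Q` with coefficients in `Y` (invariant form) -/
def ChQ (K : Type) [Field K] (Q : CubeComplex V X) (k : ℕ) {Y : Type} [AddCommGroup Y] [Module K Y]
    (r : V → Y →ₗ[K] Y) (y : Finset V → X → Y) : Prop :=
  (∀ σ x, y σ x ≠ 0 → σ ⊆ Q.lab x ∧ Q.graph.IsClique (σ : Set V) ∧ σ.card = k) ∧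
    ∀ σ x, σ ⊆ Q.lab x → ∀ v ∈ σ, y σ (Q.nb v x) = r v (y σ x)

/-- the boundary of a chain -/
def bdQ [Fintype V] {Y : Type} [AddCommGroup Y] (y : Finset V → X → Y) (κ : Finset V) (x : X) : Y :=
  ∑ v ∈ κᶜ, y (insert v κ) x

/-- `γ` is a cubical cocycle of degree `m` -/
def CocQ (Q : CubeComplex V X) (bit : X → V → ZMod 2) (m : ℕ) (γ : Finset V → X → ZMod 2) : Prop :=
  ∀ x, ∀ A : Finset V, A ⊆ Q.lab x → Q.graph.IsClique (A : Set V) → A.card = m + 1 →
    (∀ v ∈ A, bit x v = 0) → ∑ v ∈ A, (γ (A.erase v) x + γ (A.erase v) (Q.nb v x)) = 0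

/-- the cap product of a cube and of the cubical cochain `γ` of degree `m` -/
noncomputable def capD (Q : CubeComplex V X) (x₀ : X) (m : ℕ) (γ : Finset V → X → ZMod 2)
    (e : Q.Cover x₀ × Finset V) : Q.Cover x₀ × Finset V →₀ ZMod 2 :=
  ∑ C ∈ e.2.powersetCard m, γ C (Q.proj x₀ e.1) •
    Finsupp.single ((Q.cover x₀).fin e.1 C.toList, e.2 \ C) 1

/-- the cap product of a chain of `Q` and of `γ` -/
noncomputable def capQ [Fintype V] (Q : CubeComplex V X) (bit : X → V → ZMod 2) (m : ℕ)
    (γ : Finset V → X → ZMod 2) {Y : Type} [AddCommGroup Y] [Module (ZMod 2) Y]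
    (z : Finset V → X → Y) (B : Finset V) (x : X) : Y :=
  ∑ C ∈ (univ : Finset (Finset V)).filter (fun C => C.card = m ∧ Disjoint B C ∧ ∀ v ∈ C, bit x v ≠ 0),
    γ C (Q.fin x C.toList) • z (B ∪ C) x

end

section

variable {U U₀ D : Type} [DecidableEq U₀]

/-- the simplex of a tuple (zero if it is degenerate) -/
noncomputable def nd (l : List U₀) : Finset U₀ →₀ ZMod 2 :=
  if l.Nodup then Finsupp.single l.toFinset 1 else 0

/-- the simplicial chain of a tuple of vertices of the subdivision -/
noncomputable def kaz (φ : U → U₀) (L : List U) : Finset U₀ →₀ ZMod 2 := nd (L.map φ)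

/-- the cap product with the function `G` of the tuples of `m + 1` elements (front face) -/
noncomputable def kap (m : ℕ) (G : List D → ZMod 2) (f : U → D) (φ : U → U₀) (L : List U) :
    Finset U₀ →₀ ZMod 2 := G ((L.take (m + 1)).map f) • nd ((L.drop m).map φ)

/-- `G` is a cocycle of degree `m` on the tuples -/
structure IsG (m : ℕ) (G : List D → ZMod 2) : Prop where
  len : ∀ L, G L ≠ 0 → L.length = m + 1
  coc : ∀ L, lin G (bdl L) = 0

end

end Pool.Agent.H8.M6
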